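import Mathlib
import Pool.Agent.helper99.LC.Space

/-!
# Module D of the disproof of MP_c915fc_gt: finiteness, freeness, proper discontinuity
-/

set_option autoImplicit false

namespace Pool.Agent.helper41.LC

open Pool.Agent.helper99.LC

variable {W S Γ : Type} [Group W] [Group Γ] (X : Ctx W S Γ)

/-- the group is finitely generated -/
theorem fg (h : X.Q.FG) : Group.FG X.G := by
  obtain ⟨T, hT⟩ := h
  rw [Group.fg_iff_subgroup_fg]
  classical
  refine ⟨T.image X.F.ι ∪ {X.F.c}, ?_⟩
  rw [FProd.P, ← hT]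
  apply le_antisymm
  · refine Subgroup.closure_mono ?_
    intro x hx
    simp only [Finset.coe_union, Finset.coe_image, Finset.coe_singleton, Set.mem_union] at hx
    rcases hx with ⟨q, hq, rfl⟩ | hx
    · exact Or.inl ⟨q, Subgroup.subset_closure hq, rfl⟩
    · exact Or.inr hx
  · rw [Subgroup.closure_le]
    rintro x (⟨q, hq, rfl⟩ | hx)
    · have h1 : (Subgroup.closure (T : Set W)).map X.F.ι ≤
          Subgroup.closure ((T.image X.F.ι ∪ {X.F.c} : Finset Γ) : Set Γ) := by
        rw [MonoidHom.map_closure]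
        refine Subgroup.closure_mono ?_
        rw [Finset.coe_union, Finset.coe_image]
        exact Set.subset_union_left
      exact h1 ⟨q, hq, rfl⟩
    · exact Subgroup.subset_closure (by
        rw [Finset.coe_union, Finset.coe_singleton]
        exact Or.inr hx)

/-- the action is free -/
theorem free (g g' : X.G) (x : X.V) (h : g • x = g' • x) : g = g' := by
  have h1 := congrArg Subtype.val h
  rw [Ctx.smul_val, Ctx.smul_val] at h1
  exact Subtype.ext (mul_right_cancel h1)

theorem neighborSet_finite [Finite S] (v : X.V) : (X.graph.neighborSet v).Finite := by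
  classical
  have hA : {w : X.V | ∃ s, w.1 = v.1 * X.F.ι (X.P.gen s)}.Finite := by
    have : {w : X.V | ∃ s, w.1 = v.1 * X.F.ι (X.P.gen s)} ⊆
        (Subtype.val : X.V → Γ) ⁻¹' (Set.range fun s => v.1 * X.F.ι (X.P.gen s)) := by
      rintro w ⟨s, hs⟩
      exact ⟨s, hs.symm⟩
    exact ((Set.finite_range _).preimage Subtype.val_injective.injOn).subset this
  have hB : {w : X.V | ∃ s, v.1 = w.1 * X.F.ι (X.P.gen s)}.Finite := by
    have : {w : X.V | ∃ s, v.1 = w.1 * X.F.ι (X.P.gen s)} ⊆
        (Subtype.val : X.V → Γ) ⁻¹' (Set.range fun s => v.1 * (X.F.ι (X.P.gen s))⁻¹) := by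
      rintro w ⟨s, hs⟩
      exact ⟨s, by rw [hs]; simp⟩
    exact ((Set.finite_range _).preimage Subtype.val_injective.injOn).subset this
  have hC : {w : X.V | ∃ p : X.G, ∃ n : ℤ, v = X.vp p (X.P.e n) ∧
      w = X.vp (p * X.cc⁻¹) (X.P.e (n / 2))}.Finite := by
    apply Set.Subsingleton.finite
    rintro w ⟨p, n, h1, h2⟩ w' ⟨p', n', h1', h2'⟩
    obtain ⟨rfl, rfl⟩ := X.line_unique (h1.symm.trans h1')
    rw [h2, h2']
  have hD : {w : X.V | ∃ p : X.G, ∃ n : ℤ, w = X.vp p (X.P.e n) ∧
      v = X.vp (p * X.cc⁻¹) (X.P.e (n / 2))}.Finite := by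
    by_cases hex : ∃ (p : X.G) (n : ℤ), v = X.vp (p * X.cc⁻¹) (X.P.e (n / 2))
    · obtain ⟨p₀, n₀, h0⟩ := hex
      refine (Set.toFinite {X.vp p₀ (X.P.e (2 * (n₀ / 2))), X.vp p₀ (X.P.e (2 * (n₀ / 2) + 1))}).subset ?_
      rintro w ⟨p, n, h1, h2⟩
      obtain ⟨h3, h4⟩ := X.line_unique (h0.symm.trans h2)
      have h5 : p₀ = p := mul_right_cancel h3
      subst h5
      rw [h1]
      have h6 : n = 2 * (n₀ / 2) ∨ n = 2 * (n₀ / 2) + 1 := by omega
      rcases h6 with h6 | h6
      · left; rw [h6]
      · right; rw [Set.mem_singleton_iff, h6]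
    · refine Set.Finite.subset Set.finite_empty ?_
      rintro w ⟨p, n, -, h2⟩
      exact (hex ⟨p, n, h2⟩).elim
  refine (((hA.union hB).union hC).union hD).subset ?_
  intro w hw
  rw [SimpleGraph.mem_neighborSet, X.graph_adj] at hw
  rcases hw.2 with (h | h) | (h | h)
  · exact Or.inl (Or.inl (Or.inl h))
  · exact Or.inl (Or.inr h)
  · exact Or.inl (Or.inl (Or.inr h))
  · exact Or.inr h

theorem exists_geo (x y : X.V) : ∃ α : ℕ → X.V, α 0 = x ∧ α (X.d x y) = y ∧
    ∀ i j, i ≤ j → j ≤ X.d x y → X.d (α i) (α j) = j - i := by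
  obtain ⟨p, hp⟩ := X.connected.exists_walk_length_eq_dist x y
  have hp' : p.length = X.d x y := hp
  refine ⟨p.getVert, p.getVert_zero, by rw [← hp']; exact p.getVert_length, ?_⟩
  have h1 : ∀ i k, i + k ≤ p.length → X.d (p.getVert i) (p.getVert (i + k)) ≤ k := by
    intro i k
    induction k with
    | zero => intro _; rw [add_zero, X.d_self]
    | succ k ih =>
      intro h
      have h2 := ih (by omega)
      have h3 := p.adj_getVert_succ (i := i + k) (by omega)
      have h4 : X.d (p.getVert (i + k)) (p.getVert (i + k + 1)) = 1 :=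
        SimpleGraph.dist_eq_one_iff_adj.mpr h3
      have h5 := X.d_tri (p.getVert i) (p.getVert (i + k)) (p.getVert (i + k + 1))
      rw [← add_assoc]
      omega
  intro i j hij hj
  rw [← hp'] at hj
  have h2 := h1 i (j - i) (by omega)
  have h3 := h1 0 i (by omega)
  have h4 := h1 j (p.length - j) (by omega)
  have e1 : i + (j - i) = j := by omega
  have e2 : j + (p.length - j) = p.length := by omega
  rw [e1] at h2
  rw [e2, p.getVert_length] at h4
  rw [zero_add, p.getVert_zero] at h3
  have h5 := X.d_tri x (p.getVert i) y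
  have h6 := X.d_tri (p.getVert i) (p.getVert j) y
  omega

theorem ball_finite [Finite S] (v : X.V) (n : ℕ) : {w : X.V | X.d v w ≤ n}.Finite := by
  induction n with
  | zero =>
    refine (Set.finite_singleton v).subset ?_
    intro w hw
    have : X.d v w = 0 := Nat.le_zero.1 hw
    exact (X.d_eq_zero this).symm
  | succ n ih =>
    have h1 : {w : X.V | X.d v w ≤ n + 1} ⊆ {w : X.V | X.d v w ≤ n} ∪
        ⋃ u ∈ {w : X.V | X.d v w ≤ n}, X.graph.neighborSet u := by
      intro w hw
      by_cases h : X.d v w ≤ n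
      · exact Or.inl h
      · right
        have h2 : X.d v w = n + 1 := le_antisymm hw (by omega)
        obtain ⟨α, h0, he, hα⟩ := exists_geo X v w
        have h3 : X.d v (α n) = n := by
          have := hα 0 n (Nat.zero_le _) (by omega)
          rw [h0] at this
          omega
        have h4 : X.d (α n) w = 1 := by
          have := hα n (n + 1) (by omega) (by omega)
          rw [h2] at he
          rw [he] at this
          omega
        simp only [Set.mem_iUnion]
        exact ⟨α n, h3.le, SimpleGraph.dist_eq_one_iff_adj.mp h4⟩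
    exact (ih.union (ih.biUnion fun u _ => neighborSet_finite X u)).subset h1

/-- everything about the realization, except hyperbolicity and limit sets -/
theorem proper_disc [Finite S] {R : Type} [MetricSpace R] [MulAction X.G R] (ι : X.V → R)
    (hact : ∀ (g : X.G) (x y : R), dist (g • x) (g • y) = dist x y)
    (hd : ∀ v w, dist (ι v) (ι w) = (X.d v w : ℝ))
    (hdense : ∀ r, ∃ v, dist r (ι v) ≤ 1) (hι : ∀ (g : X.G) v, ι (g • v) = g • ι v)
    (K : Set R) (hK : IsCompact K) : {g : X.G | ∃ x ∈ K, g • x ∈ K}.Finite := by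
  let v₀ : X.V := X.vp 1 1
  obtain ⟨r, hr⟩ := hK.isBounded.subset_closedBall (ι v₀)
  have h1 : {g : X.G | ∃ x ∈ K, g • x ∈ K} ⊆
      (fun g : X.G => g • v₀) ⁻¹' {w : X.V | X.d v₀ w ≤ ⌊2 * r⌋₊} := by
    rintro g ⟨x, hx, hgx⟩
    have h2 : dist x (ι v₀) ≤ r := hr hx
    have h3 : dist (g • x) (ι v₀) ≤ r := hr hgx
    have h4 : (X.d v₀ (g • v₀) : ℝ) ≤ 2 * r := by
      rw [← hd, hι]
      calc dist (ι v₀) (g • ι v₀) ≤ dist (ι v₀) (g • x) + dist (g • x) (g • ι v₀) :=
            dist_triangle _ _ _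
        _ = dist (g • x) (ι v₀) + dist x (ι v₀) := by rw [dist_comm, hact]
        _ ≤ 2 * r := by linarith
    exact Nat.le_floor h4
  exact ((ball_finite X v₀ _).preimage (fun g _ g' _ h => free X g g' v₀ h)).subset h1

/-- hyperbolicity passes from the vertices (Guess.lean) to the realization -/
theorem hyperbolic_of {V R : Type} [MetricSpace R] (d : V → V → ℕ) (ι : V → R)
    (hd : ∀ v w, dist (ι v) (ι w) = (d v w : ℝ)) (hdense : ∀ r, ∃ v, dist r (ι v) ≤ 1)
    (C : ℕ) (h4 : ∀ w x y z, min ((d x w : ℤ) + d y w - d x y) ((d y w : ℤ) + d z w - d y z)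
      ≤ (d x w : ℤ) + d z w - d x z + C) :
    Hyperbolic R := by
  refine ⟨C / 2 + 6, fun o x y z => ?_⟩
  obtain ⟨o', ho⟩ := hdense o
  obtain ⟨x', hx⟩ := hdense x
  obtain ⟨y', hy⟩ := hdense y
  obtain ⟨z', hz⟩ := hdense z
  have key : ∀ (a b : R) (a' b' : V), dist a (ι a') ≤ 1 → dist b (ι b') ≤ 1 →
      dist a b ≤ d a' b' + 2 ∧ (d a' b' : ℝ) - 2 ≤ dist a b := by
    intro a b a' b' ha hb
    rw [← hd]
    constructor
    · have h1 := dist_triangle4 a (ι a') (ι b') b
      rw [dist_comm (ι b') b] at h1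
      linarith
    · have h1 := dist_triangle4 (ι a') a b (ι b')
      rw [dist_comm (ι a') a] at h1
      linarith
  have hxo := key x o x' o' hx ho
  have hyo := key y o y' o' hy ho
  have hzo := key z o z' o' hz ho
  have hxy := key x y x' y' hx hy
  have hyz := key y z y' z' hy hz
  have hxz := key x z x' z' hx hz
  have h5 : min ((d x' o' : ℝ) + d y' o' - d x' y') ((d y' o' : ℝ) + d z' o' - d y' z')
      ≤ (d x' o' : ℝ) + d z' o' - d x' z' + C := by
    exact_mod_cast h4 o' x' y' z'
  unfold gp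
  rw [dist_comm o x, dist_comm o y, dist_comm o z]
  rcases min_le_iff.1 h5 with h | h
  · have := min_le_left ((dist x o + dist y o - dist x y) / 2) ((dist y o + dist z o - dist y z) / 2)
    linarith
  · have := min_le_right ((dist x o + dist y o - dist x y) / 2) ((dist y o + dist z o - dist y z) / 2)
    linarith

end Pool.Agent.helper41.LC
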