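import Mathlib
import Pool.Agent.helper99.LC.EDefs
import Pool.Agent.helper41.LC.D

/-!
# Module E of the disproof of MP_c915fc_gt: discrete limit-set estimates
-/

set_option autoImplicit false

namespace Pool.Agent.helper41.LC

open Pool.Agent.helper99.LC

variable {W S Γ : Type} [Group W] [Group Γ] (X : Ctx W S Γ)

theorem g2_comm (x y : X.V) : X.g2 x y = X.g2 y x := by
  unfold Ctx.g2
  rw [X.d_comm x y]
  ring

theorem four_o {C : ℕ} (h : X.Hyp C) (x y z : X.V) :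
    min (X.g2 x y) (X.g2 y z) ≤ X.g2 x z + C := by
  have := h.four X.o x y z
  unfold Ctx.g2
  rw [X.d_comm X.o x, X.d_comm X.o y, X.d_comm X.o z]
  exact this

theorem g2_lip (x y y' : X.V) : |X.g2 x y - X.g2 x y'| ≤ 2 * X.d y y' := by
  unfold Ctx.g2
  have h1 := X.d_tri X.o y y'
  have h2 := X.d_tri X.o y' y
  have h3 := X.d_tri x y y'
  have h4 := X.d_tri x y' y
  have h5 := X.d_comm y y'
  rw [abs_le]
  constructor <;> omega

/-- change of base point by a group element -/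
theorem g2_smul (p : X.G) (x y : X.V) :
    |X.g2 (p • x) (p • y) - X.g2 x y| ≤ 2 * X.d X.o (p • X.o) := by
  unfold Ctx.g2
  rw [X.d_smul]
  have h1 := X.d_tri X.o (p • X.o) (p • x)
  have h2 := X.d_tri X.o (p • X.o) (p • y)
  have h3 := X.d_tri (p • X.o) X.o (p • x)
  have h4 := X.d_tri (p • X.o) X.o (p • y)
  rw [X.d_smul] at h1 h2 h3 h4
  have h5 := X.d_comm X.o (p • X.o)
  rw [abs_le]
  constructor <;> omega

/-- finite balls: an infinite family leaves all balls -/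
theorem far_of_inj [Finite S] {I : Type} (f : I → X.V) (hf : Function.Injective f) (M : ℕ) :
    {i | X.d X.o (f i) ≤ M}.Finite :=
  (ball_finite X X.o M).preimage hf.injOn

theorem o_eq : X.o = X.vm 1 (0, 0) := by
  rw [X.vm_zero, X.P.e_zero]
  rfl

theorem pi_o : X.pi X.o = (0, 0) := by rw [o_eq, X.pi_vm]

theorem pi_vh (t : ℤ) : X.pi (X.vh t) = (t, 0) := X.pi_vm _

theorem relL_one_iff {x y : X.V} : X.relL 1 x y ↔
    ¬ ((X.pi x).1 = (X.pi y).1 ∧ ((X.pi x).2 - (X.pi y).2).natAbs ≤ 1) := by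
  unfold Ctx.relL
  simp only [inv_one, one_smul]

theorem mem_L_plane {x y : X.V} {m : ℤ × ℤ} (h : m ∈ GP (X.pi x) (X.pi y)) (hr : X.relL 1 x y) :
    X.vm 1 m ∈ X.L x y := Or.inr ⟨1, m, rfl, by simpa using h, hr⟩

theorem vm_inj {m m' : ℤ × ℤ} (h : X.vm 1 m = X.vm 1 m') : m = m' := by
  rw [← X.pi_vm m, h, X.pi_vm]

/-- a point on both guessed geodesics from `o` -/
theorem le_g2_of_mem {C : ℕ} (h : X.Hyp C) {x y u : X.V} (hx : u ∈ X.L X.o x)
    (hy : u ∈ X.L X.o y) : 2 * (X.d X.o u : ℤ) - 2 * C ≤ X.g2 x y := by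
  have h1 := h.add _ _ _ hx
  have h2 := h.add _ _ _ hy
  have h3 := X.d_tri x u y
  have h4 := X.d_comm x u
  unfold Ctx.g2
  omega

/-- a point on the guessed geodesic from `o` -/
theorem le_g2_of_mem' {C : ℕ} (h : X.Hyp C) {x u : X.V} (hx : u ∈ X.L X.o x) :
    2 * (X.d X.o u : ℤ) - C ≤ X.g2 x u := by
  have h1 := h.add _ _ _ hx
  have h4 := X.d_comm x u
  unfold Ctx.g2
  omega

/-- a point on the guessed geodesic between the two points -/
theorem g2_le_of_mem {C : ℕ} (h : X.Hyp C) {x y u : X.V} (hx : u ∈ X.L x y) :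
    X.g2 x y ≤ 2 * (X.d X.o u : ℤ) + C := by
  have h1 := h.add _ _ _ hx
  have h2 := X.d_tri X.o u x
  have h3 := X.d_tri X.o u y
  have h4 := X.d_comm x u
  unfold Ctx.g2
  omega

theorem exists_far [Finite S] (f : ℤ → X.V) (hf : Function.Injective f) (M : ℤ) :
    ∃ T : ℕ, 1 ≤ T ∧ M ≤ X.d X.o (f T) := by
  by_contra hcon
  push Not at hcon
  have h1 := far_of_inj X f hf M.toNat
  have h2 : (Set.range fun n : ℕ => ((n + 1 : ℕ) : ℤ)) ⊆ {i | X.d X.o (f i) ≤ M.toNat} := by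
    rintro _ ⟨n, rfl⟩
    have h3 := hcon (n + 1) (by omega)
    simp only [Set.mem_ofPred_eq]
    omega
  have h3 : (Set.range fun n : ℕ => ((n + 1 : ℕ) : ℤ)).Infinite :=
    Set.infinite_range_of_injective fun a b h => by simpa using h
  exact h3 (h1.subset h2)

theorem vh_inj : Function.Injective (X.vh : ℤ → X.V) := fun a b h => by
  have := vm_inj X h
  exact congrArg Prod.fst this

/-- E1: every row converges to `ξ₋` at both ends -/
theorem row_far [Finite S] {C : ℕ} (h : X.Hyp C) (k M : ℤ) : ∃ N : ℕ, ∀ n t : ℤ,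
    N ≤ n.natAbs → N ≤ t → M ≤ X.g2 (X.vm 1 (-k, n)) (X.vh t) := by
  obtain ⟨T, hT1, hT⟩ := exists_far X X.vh (vh_inj X) (M + 2 * C).natAbs
  obtain ⟨N, hN⟩ := mem_GP_far k T (by omega)
  refine ⟨max N (T + 2), fun n t hn ht => ?_⟩
  have hu1 : X.vm 1 ((T : ℤ), 0) ∈ X.L X.o (X.vm 1 (-k, n)) := by
    refine mem_L_plane X ?_ ?_
    · rw [pi_o, X.pi_vm]
      exact hN n (by omega)
    · rw [relL_one_iff, pi_o, X.pi_vm]
      rintro ⟨-, h2⟩
      simp only at h2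
      omega
  have hu2 : X.vm 1 ((T : ℤ), 0) ∈ X.L X.o (X.vh t) := by
    refine mem_L_plane X ?_ ?_
    · rw [pi_o, pi_vh]
      exact mem_GP_vert (by omega) (by omega)
    · rw [relL_one_iff, pi_o, pi_vh]
      rintro ⟨h1, -⟩
      simp only at h1
      omega
  have h3 := le_g2_of_mem X h hu1 hu2
  have h4 : ((M + 2 * C).natAbs : ℤ) ≤ X.d X.o (X.vm 1 ((T : ℤ), 0)) := hT
  omega

/-- E1': the vertical ray converges -/
theorem vert_far [Finite S] {C : ℕ} (h : X.Hyp C) (M : ℤ) : ∃ N : ℕ, ∀ s t : ℤ,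
    N ≤ s → N ≤ t → M ≤ X.g2 (X.vh s) (X.vh t) := by
  obtain ⟨T, hT1, hT⟩ := exists_far X X.vh (vh_inj X) (M + 2 * C).natAbs
  have key : ∀ t : ℤ, (T : ℤ) ≤ t → X.vm 1 ((T : ℤ), 0) ∈ X.L X.o (X.vh t) := by
    intro t ht
    refine mem_L_plane X ?_ ?_
    · rw [pi_o, pi_vh]
      exact mem_GP_vert (by omega) (by omega)
    · rw [relL_one_iff, pi_o, pi_vh]
      rintro ⟨h1, -⟩
      simp only at h1
      omega
  refine ⟨T, fun s t hs ht => ?_⟩
  have h3 := le_g2_of_mem X h (key s hs) (key t ht)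
  have h4 : ((M + 2 * C).natAbs : ℤ) ≤ X.d X.o (X.vm 1 ((T : ℤ), 0)) := hT
  omega

theorem mem_GP_down {T s : ℤ} (hT : 0 ≤ T) (hs : T ≤ s) : (-T, 0) ∈ GP (0, 0) (-s, 0) := by
  refine Or.inr ⟨by simp only; omega, by simp [anc], fun t h1 h2 => ?_⟩
  simp only at h1 h2
  omega

/-- the downward ray converges: `(-h, 0)`; note `GP (-s,0) (-t,0)` is vertical too -/
theorem down_far [Finite S] {C : ℕ} (h : X.Hyp C) (M : ℤ) : ∃ N : ℕ, ∀ s t : ℤ,
    N ≤ s → N ≤ t → M ≤ X.g2 (X.vh (-s)) (X.vh (-t)) := by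
  obtain ⟨T, hT1, hT⟩ := exists_far X (fun t => X.vh (-t)) (fun a b h => by
    have := vh_inj X h
    omega) (M + 2 * C).natAbs
  have key : ∀ t : ℤ, (T : ℤ) ≤ t → X.vm 1 (-(T : ℤ), 0) ∈ X.L X.o (X.vh (-t)) := by
    intro t ht
    refine mem_L_plane X ?_ ?_
    · rw [pi_o, pi_vh]
      exact mem_GP_down (by omega) (by omega)
    · rw [relL_one_iff, pi_o, pi_vh]
      rintro ⟨h1, -⟩
      simp only at h1
      omega
  refine ⟨T, fun s t hs ht => ?_⟩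
  have h3 := le_g2_of_mem X h (key s hs) (key t ht)
  have h4 : ((M + 2 * C).natAbs : ℤ) ≤ X.d X.o (X.vm 1 (-(T : ℤ), 0)) := hT
  omega

/-- E6: the two ends are different -/
theorem ends_ne {C : ℕ} (h : X.Hyp C) (s t : ℤ) (hs : 1 ≤ s) (ht : 1 ≤ t) :
    X.g2 (X.vh (-s)) (X.vh t) ≤ C := by
  have h1 : X.vm 1 (0, 0) ∈ X.L (X.vh (-s)) (X.vh t) := by
    refine mem_L_plane X ?_ ?_
    · rw [pi_vh, pi_vh]
      refine Or.inl ⟨by simp only; omega, by simp [anc], fun t h1 h2 => ?_⟩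
      simp only at h1 h2
      omega
    · rw [relL_one_iff, pi_vh, pi_vh]
      rintro ⟨h1, -⟩
      simp only at h1
      omega
  have h2 := g2_le_of_mem X h h1
  rw [← o_eq, X.d_self] at h2
  omega

/-- E2: separation -/
theorem sep [Finite S] {C : ℕ} (h : X.Hyp C) (k M : ℤ) : ∃ N : ℕ, ∀ (x y : X.V) (t : ℤ),
    X.az x = k → X.az y ≠ k → N ≤ X.g2 x y → N ≤ t → M ≤ X.g2 x (X.vh t) := by
  obtain ⟨N₁, hN₁⟩ := row_far X h k (M + C)
  -- small `m` stay in a ball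
  obtain ⟨R, hR⟩ : ∃ R : ℕ, ∀ m : ℤ, m.natAbs < N₁ + 2 → X.d X.o (X.vm 1 (-k, m)) ≤ R := by
    have hfin : {m : ℤ | m.natAbs < N₁ + 2}.Finite := by
      refine (Set.finite_Icc (-(N₁ + 2 : ℤ)) (N₁ + 2)).subset fun m hm => ?_
      simp only [Set.mem_ofPred_eq] at hm
      rw [Set.mem_Icc]
      omega
    obtain ⟨R, hR⟩ := (hfin.image fun m => X.d X.o (X.vm 1 (-k, m))).bddAbove
    exact ⟨R, fun m hm => hR ⟨m, hm, rfl⟩⟩
  refine ⟨2 * (R + (M + 2 * C).natAbs + N₁ + 1) + C, fun x y t hx hy hxy ht => ?_⟩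
  have hpx : (X.pi x).1 = -k := by
    show -X.az x = -k
    rw [hx]
  have hpy : (X.pi y).1 ≠ -k := by
    show -X.az y ≠ -k
    omega
  have hrel : X.relL 1 x y := by
    rw [relL_one_iff]
    rintro ⟨h1, -⟩
    rw [hpx] at h1
    exact hpy h1.symm
  have hu : X.vm 1 (X.pi x) ∈ X.L x y := mem_L_plane X (left_mem_GP _ _) hrel
  have h1 := g2_le_of_mem X h hu
  have hpi : X.pi x = (-k, (X.pi x).2) := Prod.ext hpx rfl
  set m := (X.pi x).2 with hm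
  rw [hpi] at h1
  have hmbig : N₁ + 2 ≤ m.natAbs := by
    by_contra hlt
    have := hR m (by omega)
    omega
  have hrel' : X.relL 1 X.o x := by
    rw [relL_one_iff, pi_o, hpi]
    rintro ⟨-, h2⟩
    simp only at h2
    omega
  have hu' : X.vm 1 (-k, m) ∈ X.L X.o x := by
    rw [← hpi]
    exact mem_L_plane X (right_mem_GP _ _) hrel'
  have h2 := le_g2_of_mem' X h hu'
  have h3 := hN₁ m t (by omega) (by omega)
  have h4 := four_o X h x (X.vm 1 (-k, m)) (X.vh t)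
  rcases min_le_iff.1 h4 with h5 | h5
  · omega
  · omega

theorem hw_o : X.hw X.o = 1 := X.hw_vp 1

theorem pi_vp_one (w : W) : X.pi (X.vp 1 w) = (0, X.P.γ w) := by
  rw [X.pi_of_az (X.az_of_inW (X.inW_vp w)), X.hw_vp]

/-- E3: every page vertex is followed by an element of `Q` -/
theorem rich_g2 {C : ℕ} (h : X.Hyp C)
    (rich : ∀ w, ∃ q ∈ X.Q, X.P.len q = X.P.len w + X.P.len (w⁻¹ * q) ∧
      ∀ p ∈ X.Q, ∀ n, w = p * X.P.e n → (X.P.γ (p⁻¹ * q) - n).natAbs ≤ 1) (w : W) :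
    ∃ q ∈ X.Q, 2 * (X.d X.o (X.vp 1 w) : ℤ) - C ≤ X.g2 (X.vp 1 w) (X.vp 1 q) := by
  obtain ⟨q, hq, h1, h2⟩ := rich w
  refine ⟨q, hq, ?_⟩
  rw [g2_comm]
  apply le_g2_of_mem' X h
  refine Or.inl ⟨1, w, rfl, ?_, ?_, ?_⟩
  · simp only [inv_one, one_smul]
    rw [hw_o, X.hw_vp]
    unfold Page.Btw Page.dw
    rw [inv_one, one_mul, one_mul]
    exact h1.symm
  · refine Or.inr (Or.inl ?_)
    rw [inv_one, one_smul]
    exact X.inW_vp 1
  · intro p n hpn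
    obtain ⟨q', rfl, hq'⟩ := X.vp_eq_vp_one hpn
    right
    have h3 := h2 q'.1 q'.2 n hq'
    have h4 : (X.qq q')⁻¹ • X.vp 1 q = X.vp 1 (q'.1⁻¹ * q) := by
      rw [X.qq_inv, X.smul_vp, mul_one]
      exact Subtype.ext (by simp)
    rw [h4, pi_vp_one, X.vm_zero, hpn]
    have h5 := X.d_line (X.qq q') n (X.P.γ (q'.1⁻¹ * q))
    have h6 : X.th = X.P.κ + 3 := rfl
    omega

/-- E4: sequences in `p Q` close to `p` -/
theorem rich2_g2 {C : ℕ} (h : X.Hyp C)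
    (rich2 : ∀ u, ∃ q : ℕ → W, (∀ n, q n ∈ X.Q) ∧ Function.Injective q ∧
      (∀ n, X.P.γ (q n) = 0) ∧ ∀ n, X.P.len (u⁻¹ * q n) = X.P.len u + X.P.len (q n))
    (p : X.G) : ∃ q : ℕ → W, (∀ n, q n ∈ X.Q) ∧ Function.Injective q ∧
      (∀ n, X.P.γ (q n) = 0) ∧
      ∀ n, 2 * (X.d X.o (p • X.o) : ℤ) - C ≤ X.g2 (p • X.o) (p • X.vp 1 (q n)) := by
  obtain ⟨q, h1, h2, h3, h4⟩ := rich2 (X.hw (p⁻¹ • X.o))
  refine ⟨q, h1, h2, h3, fun n => ?_⟩
  have hmem : X.o ∈ X.L (p⁻¹ • X.o) (X.vp 1 (q n)) := by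
    refine Or.inl ⟨1, 1, rfl, ?_, ?_, ?_⟩
    · simp only [inv_one, one_smul]
      rw [X.hw_vp]
      unfold Page.Btw Page.dw
      rw [mul_one, X.P.len_inv, inv_one, one_mul]
      exact (h4 n).symm
    · refine Or.inr (Or.inr ?_)
      rw [inv_one, one_smul]
      exact X.inW_vp _
    · intro p' n' hpn
      have h5 : X.vp 1 (X.P.e 0) = X.vp p' (X.P.e n') := by
        rw [X.P.e_zero]
        exact hpn
      obtain ⟨rfl, rfl⟩ := X.line_unique h5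
      right
      rw [inv_one, one_smul, pi_vp_one, h3, ← o_eq, X.d_self]
      exact Nat.zero_le _
  have h5 := h.add _ _ _ hmem
  have h6 : X.d (p⁻¹ • X.o) X.o = X.d X.o (p • X.o) := by
    rw [← X.d_smul p, smul_inv_smul]
  have h7 : X.d (p⁻¹ • X.o) (X.vp 1 (q n)) = X.d X.o (p • X.vp 1 (q n)) := by
    rw [← X.d_smul p, smul_inv_smul]
  have h8 : X.d (p • X.o) (p • X.vp 1 (q n)) = X.d X.o (X.vp 1 (q n)) := X.d_smul p _ _
  unfold Ctx.g2
  omega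

/-- E5: the vertices `c ^ k q` with `γ q = 0` do not converge to `ξ₋` -/
theorem zeta_bdd {C : ℕ} (h : X.Hyp C) (k : ℕ) (q : W) (hq : X.P.γ q = 0) (t : ℤ) (ht : 1 ≤ t) :
    X.g2 (X.cc ^ (k : ℤ) • X.vp 1 q) (X.vh t) ≤ 2 * X.d X.o (X.vh (-k)) + C := by
  have hpi : X.pi (X.cc ^ (k : ℤ) • X.vp 1 q) = (-(k : ℤ), 0) := by
    rw [X.pi_cc, pi_vp_one, hq]
    simp [psh]
  have hrel : X.relL 1 (X.cc ^ (k : ℤ) • X.vp 1 q) (X.vh t) := by
    rw [relL_one_iff, hpi, pi_vh]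
    rintro ⟨h1, -⟩
    simp only at h1
    omega
  have hu : X.vm 1 (-(k : ℤ), 0) ∈ X.L (X.cc ^ (k : ℤ) • X.vp 1 q) (X.vh t) := by
    rw [← hpi]
    exact mem_L_plane X (left_mem_GP _ _) hrel
  exact g2_le_of_mem X h hu

theorem vp_one_injective : Function.Injective (X.vp 1 : W → X.V) := fun w w' h => by
  rw [← X.hw_vp w, h, X.hw_vp]

/-- E8: chains in `Q` (one-endedness) -/
theorem chain_g2 [Finite S] {C : ℕ} (h : X.Hyp C)
    (rich : ∀ w, ∃ q ∈ X.Q, X.P.len q = X.P.len w + X.P.len (w⁻¹ * q) ∧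
      ∀ p ∈ X.Q, ∀ n, w = p * X.P.e n → (X.P.γ (p⁻¹ * q) - n).natAbs ≤ 1)
    (oneEnded : ∀ (n : ℕ) (x y : W), n < X.P.len x → n < X.P.len y →
      X.P.PathIn (fun w => n < X.P.len w) x y) (M : ℤ) :
    ∃ N : ℕ, ∀ q ∈ X.Q, ∀ q' ∈ X.Q, N ≤ X.d X.o (X.vp 1 q) → N ≤ X.d X.o (X.vp 1 q') →
      Relation.ReflTransGen (fun x y : W => y ∈ X.Q ∧ M ≤ X.g2 (X.vp 1 x) (X.vp 1 y)) q q' := by
  choose r hr hrg using rich_g2 X h rich
  set D : ℕ := M.natAbs + 3 * C + 3 with hD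
  obtain ⟨n₀, hn₀⟩ : ∃ n₀ : ℕ, ∀ w : W, X.d X.o (X.vp 1 w) ≤ D → X.P.len w ≤ n₀ := by
    obtain ⟨n₀, hn₀⟩ := ((far_of_inj X (X.vp 1 : W → X.V) (vp_one_injective X) D).image
      X.P.len).bddAbove
    exact ⟨n₀, fun w hw => hn₀ ⟨w, hw, rfl⟩⟩
  have hfar : ∀ w : W, n₀ < X.P.len w → D < X.d X.o (X.vp 1 w) := by
    intro w hw
    by_contra hcon
    have := hn₀ w (by omega)
    omega
  have hlen : ∀ w : W, X.d X.o (X.vp 1 w) ≤ X.P.len w := by
    intro w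
    have := X.d_page 1 1 w
    unfold Page.dw at this
    rw [inv_one, one_mul] at this
    exact this
  have hstep : ∀ (w : W) (s : S), n₀ < X.P.len w → n₀ < X.P.len (w * X.P.gen s) →
      M ≤ X.g2 (X.vp 1 (r w)) (X.vp 1 (r (w * X.P.gen s))) := by
    intro w s h1 h2
    have f1 := hfar w h1
    have f2 := hfar _ h2
    have g1 := hrg w
    have g2 := hrg (w * X.P.gen s)
    have g3 : 2 * (X.d X.o (X.vp 1 w) : ℤ) - 2 ≤
        X.g2 (X.vp 1 w) (X.vp 1 (w * X.P.gen s)) := by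
      have a1 := X.d_page 1 w (w * X.P.gen s)
      rw [X.P.dw_gen] at a1
      have a2 := X.d_tri X.o (X.vp 1 (w * X.P.gen s)) (X.vp 1 w)
      have a3 := X.d_comm (X.vp 1 w) (X.vp 1 (w * X.P.gen s))
      unfold Ctx.g2
      omega
    have k1 := four_o X h (X.vp 1 (r w)) (X.vp 1 w) (X.vp 1 (w * X.P.gen s))
    have k2 := four_o X h (X.vp 1 (r w)) (X.vp 1 (w * X.P.gen s)) (X.vp 1 (r (w * X.P.gen s)))
    rw [g2_comm X (X.vp 1 (r w)) (X.vp 1 w)] at k1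
    have k3 : (M.natAbs : ℤ) + 2 * C ≤ X.g2 (X.vp 1 (r w)) (X.vp 1 (w * X.P.gen s)) := by
      rcases min_le_iff.1 k1 with k | k <;> omega
    rcases min_le_iff.1 k2 with k | k <;> omega
  refine ⟨n₀ + 1, fun q hq q' hq' hqn hqn' => ?_⟩
  have l1 : n₀ < X.P.len q := by
    have := hlen q
    omega
  have l2 : n₀ < X.P.len q' := by
    have := hlen q'
    omega
  have hpath := oneEnded n₀ q q' l1 l2
  have key : ∀ x y : W, X.P.PathIn (fun w => n₀ < X.P.len w) x y → x ∈ X.Q → n₀ < X.P.len y ∧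
      Relation.ReflTransGen (fun x y : W => y ∈ X.Q ∧ M ≤ X.g2 (X.vp 1 x) (X.vp 1 y)) x (r y) := by
    intro x y hxy hx
    induction hxy with
    | refl hx' =>
      refine ⟨hx', Relation.ReflTransGen.single ⟨hr x, ?_⟩⟩
      have := hrg x
      have := hfar x hx'
      omega
    | step y s hxy hy ih =>
      obtain ⟨i1, i2⟩ := ih
      exact ⟨hy, i2.tail ⟨hr _, hstep y s i1 hy⟩⟩
  refine ((key q q' hpath hq).2).tail ⟨hq', ?_⟩
  have h1 := hrg q'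
  have h2 := hfar q' l2
  rw [g2_comm] at h1
  omega

end Pool.Agent.helper41.LC
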